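import Mathlib
import Pool.Agent.Helper33_dom.Criterion

/-!
# When are all Tate classes generated by divisor classes? Abelian varieties over finite fields with
# dominating slopes

Let `q = p ^ a`, and let `π i` be finitely many Weil `q`-numbers which generate CM fields `K i`, each
of which has dominating slopes (the new case), or is of pair-transitive type, or of flip type;
embeddings of `K i` and `K j`, for different `i` and `j`, are cross flipped: some automorphism of
the complex numbers fixes one and conjugates the other (no condition if there is only one field).

Dominating slopes: let `w τ = 2 v (τ (π i)) - a` be the normalised valuations, `τ` running through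
the embeddings of `K i` in the algebraic closure of the `p`-adic numbers. There is `τ₀` with
`w τ₀ ≠ 0` such that the sum of all `|w τ|` is at most `4 |w τ₀|`. The degree and the Galois group
of `K i` are arbitrary. Examples of simple abelian varieties with commutative endomorphism algebra:
the slopes `0` and `1` once and `1/2` otherwise (K3 type); `p`-rank two and all other slopes `1/2`;
the slopes `0` and `1` once, `r / (2 r + 1)` and `(r + 1) / (2 r + 1)` with multiplicity `2 r + 1`,
and all other slopes `1/2`.

The theorem is a necessary and sufficient condition: all Tate classes, over all extensions of the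
base field and in all degrees, on all abelian varieties which are isogenous to products of powers of
the simple abelian varieties belonging to the `π i`, are polynomials in Tate classes of degree two
over the base field (classes of divisors by the theorem of Tate) if and only if no `K i` has a
subfield `E`, different from `K i` and not totally real, such that for every embedding of `E` in the
algebraic closure of the `p`-adic numbers the sum of the `w τ` over its extensions `τ` to `K i` is
zero (the square of the norm of `π i` to `E` is a power of `p` times a root of unity).

The first statement is formulated for all finite dimensional vector spaces `V` (the first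
cohomology, coefficients extended to an algebraically closed field `Ω`) with an endomorphism `Φ` (the
Frobenius) which is diagonalisable with eigenvalues among the conjugates of the `π i`. If there is
such an `E`, exotic Tate classes exist in the case when every conjugate has the multiplicity two, in
the codimension `[K i : E]`.
-/

set_option autoImplicit false

universe u

namespace Pool.Agent.Results.MP_ee618e_ag.ExoticCriterion

open NumberField Pool.Agent.H194R3.Tate Pool.Agent.Helper33Dom

theorem result (p : ℕ) [Fact p.Prime] (a : ℕ) {I : Type} [Finite I] (K : I → Type)
    [∀ i, Field (K i)] [∀ i, NumberField (K i)] [∀ i, IsCMField (K i)]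
    (π : ∀ i, K i) (hint : ∀ i, IsIntegral ℤ (π i))
    (hgen : ∀ i, IntermediateField.adjoin ℚ {π i} = ⊤)
    (hweil : ∀ i, ∀ φ : K i →+* ℂ, ‖φ (π i)‖ ^ 2 = (p : ℝ) ^ a)
    (hπ : ∀ i, DominantSlopes p a (π i) ∨ PairTransitiveType (π i) ∨ FlipType p a (π i))
    (hcross : ∀ i j, i ≠ j → ∀ (φ : K i →+* ℂ) (ψ : K j →+* ℂ), CrossFlipped φ ψ)
    (Ω : Type u) [Field Ω] [IsAlgClosed Ω] [CharZero Ω] :
    (∀ (V : Type u) [AddCommGroup V] [Module Ω V] [FiniteDimensional Ω V] (Φ : V →ₗ[Ω] V),
      Submodule.span Ω {v : V | ∃ i, ∃ σ : K i →+* Ω, Φ v = σ (π i) • v} = ⊤ →
      ∀ (m s : ℕ), 0 < s → ∀ x ∈ ⋀[Ω]^(2 * m) V,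
        ExteriorAlgebra.map (Φ ^ s) x = (((p : Ω) ^ a) ^ m) ^ s • x →
        x ∈ Algebra.adjoin Ω {y : ExteriorAlgebra Ω V |
          y ∈ ⋀[Ω]^2 V ∧ ExteriorAlgebra.map Φ y = (p : Ω) ^ a • y}) ↔
      ∀ i, ∀ E : Subfield (K i), ¬ NormSub p a (π i) E :=
  criterion p a K π hint hgen hweil hπ hcross Ω

end Pool.Agent.Results.MP_ee618e_ag.ExoticCriterion
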